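import Mathlib
import Pool.Agent.Helper36.SecConv
import Pool.Agent.SCY.Fin2

/-!
For almost all quadratic twists of a hyperelliptic curve every section of the fundamental exact
sequence agrees modulo squares with a rational Weierstrass point (or there is no section).
-/

namespace Pool.Agent.SCY.Kept.SectionsModSquares

open Pool.Agent.Helper36 Pool.Agent.SCY Polynomial

/-- Let `f ∈ ℤ[X]` be squarefree over `ℚ`, of even degree at least `6`, and let `m` be the number of
its irreducible factors of odd degree over `ℚ`.  Suppose that `m ≠ 2`, or that some automorphism of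
the field of algebraic numbers fixes no root of `f`, or that `f` has degree `6` and no rational root.
Then there are `C` and `δ > 0` such that for all `N ≥ 2` the following holds for all but at most
`C N / (log N)^δ` of the integers `d` with `|d| ≤ N`.  For every extension field `K` of `ℚ` containing
`x`, `y` with `x` transcendental over `ℚ` and `d * y ^ 2 = f(x)` (for instance the function field of this
hyperelliptic curve) and every section `s` of its fundamental exact sequence over `ℚ` there is a
nonempty set `L` of at most two rational roots of `f` (or of four, if `m = 4`) such that `s` agrees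
modulo squares with all `a ∈ L`. -/
theorem result (f : ℤ[X]) (hsq : Squarefree (f.map (Int.castRingHom ℚ)))
    (heven : Even f.natDegree) (h6 : 6 ≤ f.natDegree) (m : ℕ)
    (hm : m = ((UniqueFactorizationMonoid.normalizedFactors (f.map (Int.castRingHom ℚ))).filter
        (fun g => Odd g.natDegree)).card)
    (h : m ≠ 2 ∨
      (∃ σ : AlgebraicClosure ℚ ≃ₐ[ℚ] AlgebraicClosure ℚ,
        ∀ x : AlgebraicClosure ℚ, aeval x f = 0 → σ x ≠ x) ∨
      (f.natDegree = 6 ∧ ∀ x : ℚ, aeval x f ≠ 0)) :
    ∃ C δ : ℝ, 0 < δ ∧ ∀ N : ℕ, 2 ≤ N →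
      (Nat.card {d : ℤ // |d| ≤ N ∧
        ∃ (K Ω : Type) (_ : Field K) (_ : Field Ω) (_ : Algebra ℚ K) (_ : Algebra K Ω)
          (_ : Algebra ℚ Ω) (_ : IsScalarTower ℚ K Ω) (_ : IsAlgClosure K Ω) (x y : K),
          Transcendental ℚ x ∧ (d : K) * y ^ 2 = aeval x f ∧ ∃ s : PiOneSection ℚ K Ω,
          ¬ ∃ L : Finset ℚ, L.Nonempty ∧ (L.card ≤ 2 ∨ (L.card = 4 ∧ m = 4)) ∧
            (∀ a ∈ L, aeval a f = 0) ∧ EqualModSquares f L ∧ AgreesOn f s x L} : ℝ)
        ≤ C * N / (Real.log N) ^ δ := by
  refine Pool.Agent.SCY.final2 f hsq heven h6 m ?_ h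
  convert hm

end Pool.Agent.SCY.Kept.SectionsModSquares
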